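import Pool.Agent.H21.L.R_seed8.H341R2.CurveDefs
import Pool.Agent.H21.L.R_seed8.H341R2.Stepanov

set_option autoImplicit false

namespace Pool.Agent.H341R2

open Polynomial

section fin

variable {F : Type} [Field F] [Fintype F] [DecidableEq F]

/-- the character sum of `f` -/
noncomputable def charS (F : Type) [Field F] [Fintype F] [DecidableEq F] (f : ℤ[X]) : ℤ :=
  ∑ x : F, quadraticChar F (aeval x f)

/-- the contribution of infinity -/
noncomputable def charInf (F : Type) [Field F] [Fintype F] [DecidableEq F] (f : ℤ[X]) : ℤ :=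
  if Odd f.natDegree then 0 else quadraticChar F (f.leadingCoeff : F)

theorem card_sqrt (hF : ringChar F ≠ 2) (D c : F) (hD : D ≠ 0) :
    ((Nat.card {z : F // D * z ^ 2 = c} : ℕ) : ℤ) =
      quadraticChar F D * quadraticChar F c + 1 := by
  have h1 : ∀ z : F, D * z ^ 2 = c ↔ z ^ 2 = c * D⁻¹ := by
    intro z
    rw [eq_mul_inv_iff_mul_eq₀ hD, mul_comm]
  have h2 : (Nat.card {z : F // D * z ^ 2 = c} : ℕ) = {z : F | z ^ 2 = c * D⁻¹}.toFinset.card := by
    rw [Nat.card_eq_fintype_card, Fintype.card_subtype]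
    congr 1
    ext z
    simp [h1]
  rw [h2, quadraticChar_card_sqrts hF, map_mul]
  have h3 : quadraticChar F D⁻¹ = quadraticChar F D := by
    have h4 : quadraticChar F D⁻¹ * quadraticChar F D = 1 := by
      rw [← map_mul, inv_mul_cancel₀ hD, map_one]
    have h5 : quadraticChar F D * quadraticChar F D = 1 := by
      rw [← sq]
      exact quadraticChar_sq_one hD
    calc quadraticChar F D⁻¹ = quadraticChar F D⁻¹ * (quadraticChar F D * quadraticChar F D) := by
          rw [h5, mul_one]
      _ = quadraticChar F D := by rw [← mul_assoc, h4, one_mul]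
  rw [h3, mul_comm (quadraticChar F c)]

theorem affineCount_eq (hF : ringChar F ≠ 2) (f : ℤ[X]) (D : ℤ) (hD : (D : F) ≠ 0) :
    (affineCount F f D : ℤ) = Fintype.card F + quadraticChar F (D : F) * charS F f := by
  have h1 : affineCount F f D =
      ∑ x : F, Nat.card {z : F // (D : F) * z ^ 2 = aeval x f} := by
    rw [affineCount]
    have e : {P : F × F // (D : F) * P.2 ^ 2 = aeval P.1 f} ≃
        Σ x : F, {z : F // (D : F) * z ^ 2 = aeval x f} :=
      { toFun := fun P => ⟨P.1.1, P.1.2, P.2⟩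
        invFun := fun P => ⟨(P.1, P.2.1), P.2.2⟩
        left_inv := fun P => rfl
        right_inv := fun P => rfl }
    rw [Nat.card_congr e, Nat.card_sigma]
  rw [h1]
  push_cast
  rw [Finset.sum_congr rfl fun x _ => card_sqrt hF (D : F) (aeval x f) hD, Finset.sum_add_distrib,
    ← Finset.mul_sum, charS]
  simp [add_comm]

theorem curveCount_eq (hF : ringChar F ≠ 2) (f : ℤ[X]) (D : ℤ) (hD : (D : F) ≠ 0) :
    (Fintype.card F : ℤ) + 1 - curveCount F f D =
      -(quadraticChar F (D : F) * (charS F f + charInf F f)) := by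
  rw [curveCount, infinityCount, charInf]
  push_cast
  rw [affineCount_eq hF f D hD]
  split_ifs with h
  · ring
  · rw [card_sqrt hF (D : F) _ hD]
    ring

/-- a separable non-constant polynomial is not a constant times a square -/
theorem not_const_mul_sq {K : Type*} [Field K] {g : K[X]} (hg : g.Separable)
    (hd : 1 ≤ g.natDegree) (c : K) (h : K[X]) : g ≠ C c * h ^ 2 := by
  intro hgh
  have h1 : IsUnit h := hg.squarefree h ⟨C c, by rw [hgh]; ring⟩
  have h2 : h.natDegree = 0 := natDegree_eq_zero_of_isUnit h1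
  have h3 : g.natDegree ≤ 0 := by
    rw [hgh]
    refine natDegree_mul_le.trans ?_
    rw [natDegree_C, zero_add, natDegree_pow, h2, mul_zero]
  omega

theorem charS_bound (hF : ringChar F ≠ 2) (f : ℤ[X])
    (hlc : (f.leadingCoeff : F) ≠ 0) (hsep : (f.map (Int.castRingHom F)).Separable)
    (hd : 1 ≤ f.natDegree) :
    |(charS F f : ℝ)| ≤ 5 * f.natDegree * Real.sqrt (Fintype.card F) := by
  set g := f.map (Int.castRingHom F) with hg
  have hgd : g.natDegree = f.natDegree := by
    rw [hg]
    exact natDegree_map_of_leadingCoeff_ne_zero _ (by simpa using hlc)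
  have h1 := weil_bound hF g (by omega) (not_const_mul_sq hsep (by omega))
  rw [hgd] at h1
  have h2 : (charS F f : ℝ) = ∑ x : F, (quadraticChar F (g.eval x) : ℝ) := by
    rw [charS]
    push_cast
    refine Finset.sum_congr rfl fun x _ => ?_
    rw [hg, eval_map, aeval_def]
    rfl
  rw [h2]
  exact h1

theorem charInf_bound (f : ℤ[X]) : |(charInf F f : ℝ)| ≤ 1 := by
  rw [charInf]
  split_ifs with h
  · simp
  · by_cases h0 : (f.leadingCoeff : F) = 0
    · simp [h0]
    · rcases quadraticChar_dichotomy h0 with h | h <;> simp [h]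

end fin

/-- the quadratic character of `𝔽_{p^m}` on integers -/
theorem galoisField_quadraticChar (p : ℕ) [Fact p.Prime] (hp : p ≠ 2) (m : ℕ) (hm : m ≠ 0)
    [Fintype (GaloisField p m)] [DecidableEq (GaloisField p m)] (D : ℤ)
    (hD : ¬ (p : ℤ) ∣ D) :
    quadraticChar (GaloisField p m) (D : GaloisField p m) = legendreSym p D ^ m := by
  have hcharP : CharP (GaloisField p m) p := inferInstance
  have hring : ringChar (GaloisField p m) = p := ringChar.eq (GaloisField p m) p
  have hF : ringChar (GaloisField p m) ≠ 2 := by rw [hring]; exact hp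
  have hcard : Fintype.card (GaloisField p m) = p ^ m := by
    rw [← Nat.card_eq_fintype_card, GaloisField.card p m hm]
  have hpodd : Odd p := (Fact.out : p.Prime).odd_of_ne_two hp
  obtain ⟨k, hk⟩ := hpodd
  have hgeom : (∑ j ∈ Finset.range m, p ^ j) * (2 * k) + 1 = p ^ m := by
    have := geom_sum_mul_add (2 * k) m
    rw [← hk] at this
    exact this
  have hhalf : p ^ m / 2 = k * ∑ j ∈ Finset.range m, p ^ j := by
    have : p ^ m = 2 * (k * ∑ j ∈ Finset.range m, p ^ j) + 1 := by
      rw [← hgeom]; ring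
    omega
  have hp2 : p / 2 = k := by omega
  have hDp : ((D : ℤ) : ZMod p) ≠ 0 := by
    rwa [Ne, ZMod.intCast_zmod_eq_zero_iff_dvd]
  have hL : legendreSym p D = 1 ∨ legendreSym p D = -1 := legendreSym.eq_one_or_neg_one p hDp
  have hpow : ((D : ℤ) : GaloisField p m) ^ k = ((legendreSym p D : ℤ) : GaloisField p m) := by
    have h1 := legendreSym.eq_pow p D
    rw [hp2] at h1
    have h2 := congrArg (algebraMap (ZMod p) (GaloisField p m)) h1
    rw [map_pow, map_intCast, map_intCast] at h2
    exact h2.symm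
  have hDF : ((D : ℤ) : GaloisField p m) ≠ 0 := by
    rw [Ne, CharP.intCast_eq_zero_iff (GaloisField p m) p]
    exact hD
  have h1 := quadraticChar_eq_pow_of_char_ne_two' hF ((D : ℤ) : GaloisField p m)
  rw [hcard, hhalf, pow_mul, hpow] at h1
  have hodd : Odd (∑ j ∈ Finset.range m, p ^ j) ↔ Odd m := by
    have h3 : ∀ n, Odd (∑ j ∈ Finset.range n, p ^ j) ↔ Odd n := by
      intro n
      induction n with
      | zero => simp
      | succ n ih =>
        rw [Finset.sum_range_succ, Nat.odd_add, ih, Nat.odd_add_one]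
        have h4 : ¬ Even (p ^ n) := by
          rw [Nat.not_even_iff_odd]
          exact Odd.pow ⟨k, hk⟩
        simp only [h4, iff_false]
    exact h3 m
  have hne : (-1 : GaloisField p m) ≠ 1 := Ring.neg_one_ne_one_of_char_ne_two hF
  rcases hL with h | h
  · rw [h] at h1 ⊢
    simp only [Int.cast_one, one_pow] at h1 ⊢
    rcases quadraticChar_dichotomy hDF with h5 | h5
    · exact h5
    · rw [h5] at h1
      simp only [Int.cast_neg, Int.cast_one] at h1
      exact absurd h1 hne
  · rw [h] at h1 ⊢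
    rcases Nat.even_or_odd m with hm2 | hm2
    · have h6 : Even (∑ j ∈ Finset.range m, p ^ j) := by
        rw [← Nat.not_odd_iff_even, hodd, Nat.not_odd_iff_even]
        exact hm2
      rw [hm2.neg_one_pow]
      simp only [Int.cast_neg, Int.cast_one, h6.neg_one_pow] at h1
      rcases quadraticChar_dichotomy hDF with h5 | h5
      · exact h5
      · rw [h5] at h1
        simp only [Int.cast_neg, Int.cast_one] at h1
        exact absurd h1 hne
    · rw [hm2.neg_one_pow]
      simp only [Int.cast_neg, Int.cast_one, (hodd.2 hm2).neg_one_pow] at h1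
      rcases quadraticChar_dichotomy hDF with h5 | h5
      · rw [h5] at h1
        simp only [Int.cast_one] at h1
        exact absurd h1.symm hne
      · exact h5

section trace

variable {f : ℤ[X]} {D : ℤ} {p : Nat.Primes}

theorem GoodPrime.one (h : GoodPrime f D p) : GoodPrime f 1 p := by
  refine ⟨fun h1 => h.1 ?_, h.2⟩
  have : (2 : ℤ) * D * f.leadingCoeff = D * (2 * 1 * f.leadingCoeff) := by ring
  rw [this]
  exact Dvd.dvd.mul_left h1 D

theorem GoodPrime.ne_two (h : GoodPrime f D p) : (p : ℕ) ≠ 2 := by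
  intro h2
  apply h.1
  rw [h2, mul_assoc]
  exact dvd_mul_right _ _

theorem GoodPrime.not_dvd (h : GoodPrime f D p) : ¬ ((p : ℕ) : ℤ) ∣ D := by
  intro h2
  apply h.1
  exact Dvd.dvd.mul_right (Dvd.dvd.mul_left h2 2) _

theorem GoodPrime.not_dvd_lc (h : GoodPrime f D p) : ¬ ((p : ℕ) : ℤ) ∣ f.leadingCoeff := by
  intro h2
  apply h.1
  exact Dvd.dvd.mul_left h2 _

open Classical in
theorem traceH1_eq (h : GoodPrime f D p) (m : ℕ) (hm : m ≠ 0) :
    haveI : Fact (p : ℕ).Prime := ⟨p.2⟩
    traceH1 f D p m = -(legendreSym p D ^ m * (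
      @charS (GaloisField p m) _ (Fintype.ofFinite _) _ f +
      @charInf (GaloisField p m) _ (Fintype.ofFinite _) _ f)) := by
  have : Fact (p : ℕ).Prime := ⟨p.2⟩
  let _ : Fintype (GaloisField p m) := Fintype.ofFinite _
  have hring : ringChar (GaloisField p m) = p := ringChar.eq (GaloisField p m) p
  have hF : ringChar (GaloisField p m) ≠ 2 := by rw [hring]; exact h.ne_two
  have hD : ((D : ℤ) : GaloisField p m) ≠ 0 := by
    rw [Ne, CharP.intCast_eq_zero_iff (GaloisField p m) p]
    exact h.not_dvd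
  have h1 := curveCount_eq hF f D hD
  have h2 := galoisField_quadraticChar p h.ne_two m hm D h.not_dvd
  rw [h2] at h1
  rw [← h1, traceH1]
  have h3 : (Fintype.card (GaloisField p m) : ℤ) = (p : ℤ) ^ m := by
    rw [← Nat.card_eq_fintype_card, GaloisField.card p m hm]
    push_cast
    rfl
  rw [h3]

theorem traceH1_twist (h : GoodPrime f D p) (m : ℕ) (hm : m ≠ 0) :
    haveI : Fact (p : ℕ).Prime := ⟨p.2⟩
    traceH1 f D p m = legendreSym p D ^ m * traceH1 f 1 p m := by
  have : Fact (p : ℕ).Prime := ⟨p.2⟩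
  rw [traceH1_eq h m hm, traceH1_eq h.one m hm, legendreSym.at_one, one_pow]
  ring

theorem traceH1_bound (h : GoodPrime f D p) (hd : 1 ≤ f.natDegree) (m : ℕ) (hm : m ≠ 0) :
    |(traceH1 f D p m : ℝ)| ≤ (5 * f.natDegree + 1) * Real.sqrt ((p : ℝ) ^ m) := by
  classical
  have : Fact (p : ℕ).Prime := ⟨p.2⟩
  let _ : Fintype (GaloisField p m) := Fintype.ofFinite _
  have hring : ringChar (GaloisField p m) = p := ringChar.eq (GaloisField p m) p
  have hF : ringChar (GaloisField p m) ≠ 2 := by rw [hring]; exact h.ne_two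
  have hlc : ((f.leadingCoeff : ℤ) : GaloisField p m) ≠ 0 := by
    rw [Ne, CharP.intCast_eq_zero_iff (GaloisField p m) p]
    exact h.not_dvd_lc
  have hsep : (f.map (Int.castRingHom (GaloisField p m))).Separable := by
    have h1 := h.2.map (f := algebraMap (ZMod p) (GaloisField p m))
    rw [Polynomial.map_map] at h1
    have e : (algebraMap (ZMod p) (GaloisField p m)).comp (Int.castRingHom (ZMod p)) =
        Int.castRingHom (GaloisField p m) := RingHom.ext_int _ _
    rwa [e] at h1
  have h1 := charS_bound hF f hlc hsep hd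
  have h2 := charInf_bound (F := GaloisField p m) f
  have h3 : (Fintype.card (GaloisField p m) : ℝ) = (p : ℝ) ^ m := by
    rw [← Nat.card_eq_fintype_card, GaloisField.card p m hm]
    push_cast
    rfl
  rw [h3] at h1
  have h4 : |((legendreSym p D : ℤ) : ℝ) ^ m| ≤ 1 := by
    have hDp : ((D : ℤ) : ZMod p) ≠ 0 := by
      rw [Ne, ZMod.intCast_zmod_eq_zero_iff_dvd]
      exact h.not_dvd
    rcases legendreSym.eq_one_or_neg_one p hDp with h5 | h5 <;> rw [h5] <;> simp [abs_pow]
  have h5 : (1 : ℝ) ≤ Real.sqrt ((p : ℝ) ^ m) := by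
    rw [Real.one_le_sqrt]
    exact one_le_pow₀ (by exact_mod_cast p.2.one_lt.le)
  rw [traceH1_eq h m hm]
  push_cast
  rw [abs_neg, abs_mul]
  calc |((legendreSym p D : ℤ) : ℝ) ^ m| * |(charS (GaloisField p m) f : ℝ) +
        (charInf (GaloisField p m) f : ℝ)|
      ≤ 1 * (5 * f.natDegree * Real.sqrt ((p : ℝ) ^ m) + 1) :=
        mul_le_mul h4 ((abs_add_le _ _).trans (add_le_add h1 h2)) (abs_nonneg _) zero_le_one
    _ ≤ (5 * f.natDegree + 1) * Real.sqrt ((p : ℝ) ^ m) := by
        rw [one_mul, add_mul, one_mul]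
        linarith

/-- coefficients of `(1 + A T + q T²)ⁿ` -/
theorem coeff_succ (A q : ℤ) (n i : ℕ) :
    ((1 + C A * X + C q * X ^ 2 : ℤ[X]) ^ (n + 1)).coeff i =
      ((1 + C A * X + C q * X ^ 2 : ℤ[X]) ^ n).coeff i +
      A * (if 1 ≤ i then ((1 + C A * X + C q * X ^ 2 : ℤ[X]) ^ n).coeff (i - 1) else 0) +
      q * (if 2 ≤ i then ((1 + C A * X + C q * X ^ 2 : ℤ[X]) ^ n).coeff (i - 2) else 0) := by
  set P := (1 + C A * X + C q * X ^ 2 : ℤ[X]) ^ n with hP
  have h1 : (1 + C A * X + C q * X ^ 2 : ℤ[X]) ^ (n + 1) = P + C A * (P * X) + C q * (P * X ^ 2) := by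
    rw [pow_succ, ← hP]; ring
  rw [h1, coeff_add, coeff_add, coeff_C_mul, coeff_C_mul, coeff_mul_X_pow']
  congr 2
  congr 1
  have := coeff_mul_X_pow' P 1 i
  rwa [pow_one] at this

theorem coeff_twist (ε A q : ℤ) (hε : ε ^ 2 = 1) (n : ℕ) : ∀ i,
    ((1 + C (ε * A) * X + C q * X ^ 2 : ℤ[X]) ^ n).coeff i =
      ε ^ i * ((1 + C A * X + C q * X ^ 2 : ℤ[X]) ^ n).coeff i := by
  induction n with
  | zero =>
    intro i
    rw [pow_zero, pow_zero, coeff_one]
    split_ifs with h
    · rw [h]; simp
    · simp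
  | succ n ih =>
    intro i
    rw [coeff_succ, coeff_succ, ih i, ih (i - 1), ih (i - 2)]
    rcases i with _ | _ | i
    · simp
    · simp; ring
    · have h1 : ε ^ (i + 1 + 1) = ε ^ i := by rw [pow_succ, pow_succ, mul_assoc, ← sq, hε, mul_one]
      have h2 : i + 1 + 1 - 1 = i + 1 := by omega
      have h3 : i + 1 + 1 - 2 = i := by omega
      rw [h2, h3, if_pos (by omega), if_pos (by omega), if_pos (by omega), if_pos (by omega), h1]
      have h4 : ε * ε ^ (i + 1) = ε ^ i := by
        rw [pow_succ, mul_comm (ε ^ i), ← mul_assoc, ← sq, hε, one_mul]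
      linear_combination (A * ((1 + C A * X + C q * X ^ 2 : ℤ[X]) ^ n).coeff (i + 1)) * h4

/-- even coefficients of `(1 + A T + q T²)ⁿ` are nonnegative -/
theorem coeff_even_nonneg (A q : ℤ) (hq : 0 ≤ q) (n : ℕ) : ∀ i,
    (Even i → 0 ≤ ((1 + C A * X + C q * X ^ 2 : ℤ[X]) ^ n).coeff i) ∧
    (Odd i → 0 ≤ A * ((1 + C A * X + C q * X ^ 2 : ℤ[X]) ^ n).coeff i) := by
  induction n with
  | zero =>
    intro i
    rw [pow_zero, coeff_one]
    constructor
    · intro _; split_ifs <;> norm_num
    · intro hi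
      rw [if_neg]
      · simp
      · rintro rfl
        simp at hi
  | succ n ih =>
    intro i
    constructor
    · intro hi
      rw [coeff_succ]
      refine add_nonneg (add_nonneg ((ih i).1 hi) ?_) (mul_nonneg hq ?_)
      · split_ifs with h
        · exact (ih (i - 1)).2 (Nat.Even.sub_odd h hi odd_one)
        · simp
      · split_ifs with h
        · exact (ih (i - 2)).1 (by rw [Nat.even_sub h]; simp [hi])
        · exact le_rfl
    · intro hi
      rw [coeff_succ, mul_add, mul_add]
      refine add_nonneg (add_nonneg ((ih i).2 hi) ?_) ?_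
      · split_ifs with h
        · have h1 := (ih (i - 1)).1 (Nat.Odd.sub_odd hi odd_one)
          rw [← mul_assoc]
          exact mul_nonneg (mul_self_nonneg A) h1
        · simp
      · split_ifs with h
        · have h1 := (ih (i - 2)).2 (by
            rw [← Nat.not_even_iff_odd, Nat.even_sub h]
            simp only [even_two, iff_true]
            rwa [Nat.not_even_iff_odd])
          have : A * (q * ((1 + C A * X + C q * X ^ 2 : ℤ[X]) ^ n).coeff (i - 2)) =
            q * (A * ((1 + C A * X + C q * X ^ 2 : ℤ[X]) ^ n).coeff (i - 2)) := by ring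
          rw [this]
          exact mul_nonneg hq h1
        · simp

/-- size of the coefficients of `(1 + A T + q T²)ⁿ` -/
theorem coeff_bound (A q : ℤ) (s M : ℝ) (hs : 0 ≤ s) (hM : 0 ≤ M) (hq : (q : ℝ) = s ^ 2)
    (hA : |(A : ℝ)| ≤ M * s) (n : ℕ) : ∀ i,
    |(((1 + C A * X + C q * X ^ 2 : ℤ[X]) ^ n).coeff i : ℝ)| ≤ (M + 2) ^ n * s ^ i := by
  induction n with
  | zero =>
    intro i
    rw [pow_zero, coeff_one]
    split_ifs with h
    · subst h; simp
    · simp
      positivity
  | succ n ih =>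
    intro i
    rw [coeff_succ]
    push_cast
    have h1 := ih i
    have h2 : |(A : ℝ) * (((if 1 ≤ i then
        ((1 + C A * X + C q * X ^ 2 : ℤ[X]) ^ n).coeff (i - 1) else 0 : ℤ)) : ℝ)| ≤
        M * ((M + 2) ^ n * s ^ i) := by
      rw [abs_mul]
      split_ifs with h
      · have h3 := ih (i - 1)
        calc |(A : ℝ)| * |(((1 + C A * X + C q * X ^ 2 : ℤ[X]) ^ n).coeff (i - 1) : ℝ)|
            ≤ (M * s) * ((M + 2) ^ n * s ^ (i - 1)) :=
              mul_le_mul hA h3 (abs_nonneg _) (by positivity)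
          _ = M * ((M + 2) ^ n * (s ^ (i - 1) * s)) := by ring
          _ = M * ((M + 2) ^ n * s ^ i) := by rw [← pow_succ, Nat.sub_add_cancel h]
      · simp
        positivity
    have h4 : |(q : ℝ) * (((if 2 ≤ i then
        ((1 + C A * X + C q * X ^ 2 : ℤ[X]) ^ n).coeff (i - 2) else 0 : ℤ)) : ℝ)| ≤
        (M + 2) ^ n * s ^ i := by
      rw [abs_mul]
      split_ifs with h
      · have h3 := ih (i - 2)
        rw [hq, abs_of_nonneg (sq_nonneg s)]
        calc s ^ 2 * |(((1 + C A * X + C q * X ^ 2 : ℤ[X]) ^ n).coeff (i - 2) : ℝ)|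
            ≤ s ^ 2 * ((M + 2) ^ n * s ^ (i - 2)) :=
              mul_le_mul_of_nonneg_left h3 (sq_nonneg s)
          _ = (M + 2) ^ n * (s ^ (i - 2) * s ^ 2) := by ring
          _ = (M + 2) ^ n * s ^ i := by rw [← pow_add, Nat.sub_add_cancel h]
      · simp
        positivity
    have h5 : (M + 2) ^ (n + 1) * s ^ i = (M + 2) ^ n * s ^ i + M * ((M + 2) ^ n * s ^ i) +
        (M + 2) ^ n * s ^ i := by ring
    rw [h5]
    push_cast at h2 h4
    exact (abs_add_le _ _).trans (add_le_add ((abs_add_le _ _).trans (add_le_add h1 h2)) h4)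

end trace

end Pool.Agent.H341R2
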