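import Mathlib

/-! L-functions of powers of hyperelliptic curves `C_D : D y² = f(x)` over `ℚ`. -/

set_option autoImplicit false

namespace Pool.Agent.H341R2

open Polynomial

/-- number of points `(x, y)` with coordinates in `F` on the affine curve `D y² = f(x)` -/
noncomputable def affineCount (F : Type) [Field F] (f : ℤ[X]) (D : ℤ) : ℕ :=
  Nat.card {P : F × F // (D : F) * P.2 ^ 2 = aeval P.1 f}

/-- number of `F`-points at infinity of the smooth projective model of `D y² = f(x)`: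
one if `deg f` is odd, the number of `z ∈ F` with `D z² = lc(f)` if `deg f` is even -/
noncomputable def infinityCount (F : Type) [Field F] (f : ℤ[X]) (D : ℤ) : ℕ :=
  if Odd f.natDegree then 1 else Nat.card {z : F // (D : F) * z ^ 2 = (f.leadingCoeff : F)}

/-- number of `F`-points of the smooth projective curve `C_D : D y² = f(x)` -/
noncomputable def curveCount (F : Type) [Field F] (f : ℤ[X]) (D : ℤ) : ℕ :=
  affineCount F f D + infinityCount F f D

/-- trace of the `m`-th power of Frobenius at `p` on `H¹(C_D)`: it is `p^m + 1 - #C_D(𝔽_{p^m})` -/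
noncomputable def traceH1 (f : ℤ[X]) (D : ℤ) (p : Nat.Primes) (m : ℕ) : ℤ :=
  haveI : Fact (p : ℕ).Prime := ⟨p.2⟩
  (p : ℤ) ^ m + 1 - curveCount (GaloisField p m) f D

/-- trace of the `m`-th power of Frobenius at `p` on `Hⁱ((C_D)ⁿ)`, by the Künneth formula:
`H⁰, H¹, H²` of the curve have traces `1, traceH1, p^m`, and so it is the coefficient of `Tⁱ` in
`(1 + traceH1 · T + p^m · T²)ⁿ` -/
noncomputable def traceH (n i : ℕ) (f : ℤ[X]) (D : ℤ) (p : Nat.Primes) (m : ℕ) : ℤ :=
  ((1 + C (traceH1 f D p m) * X + C ((p : ℤ) ^ m) * X ^ 2 : ℤ[X]) ^ n).coeff i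

/-- the local factor `det(1 - Frob p^{-s} | Hⁱ((C_D)ⁿ))⁻¹ = exp(∑_{m ≥ 1} Tr(Frob^m) p^{-ms}/m)`
at a prime `p` of good reduction -/
noncomputable def goodFactor (n i : ℕ) (f : ℤ[X]) (D : ℤ) (p : Nat.Primes) (s : ℂ) : ℂ :=
  Complex.exp (∑' m : ℕ, (traceH n i f D p (m + 1) : ℂ) * ((p : ℕ) : ℂ) ^ (-((m + 1 : ℂ) * s)) /
    (m + 1 : ℂ))

/-- primes not dividing `2 D lc(f)` modulo which `f` stays separable; the curve `C_D` has good
reduction there -/
def GoodPrime (f : ℤ[X]) (D : ℤ) (p : Nat.Primes) : Prop :=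
  ¬ ((p : ℕ) : ℤ) ∣ 2 * D * f.leadingCoeff ∧ (f.map (Int.castRingHom (ZMod p))).Separable

open Classical in
/-- the Euler product `L(Hⁱ((C_D)ⁿ), s)`; `B p` is the inverse of the Euler factor at the
remaining primes `p`, a polynomial in `p^{-s}` -/
noncomputable def LFun (n i : ℕ) (f : ℤ[X]) (D : ℤ) (B : Nat.Primes → ℂ[X]) (s : ℂ) : ℂ :=
  ∏' p : Nat.Primes, if GoodPrime f D p then goodFactor n i f D p s
    else ((B p).eval (((p : ℕ) : ℂ) ^ (-s)))⁻¹

end Pool.Agent.H341R2
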